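import Mathlib

/-!
# A density bound for sets with two families of forbidden differences

Let `E` be a set of positive integers such that for `v, w ∈ E`: `v + 2 w`, `v + 8 w` are not in `E`
if `v` is odd, and `v + l w` is not in `E` if `v` is even and `l` is an odd prime not dividing `v`.
Then `E` has upper density at most `9 / 20`.
-/

set_option autoImplicit false

namespace Pool.Agent.MajorityShifts

open Finset Filter

/-- The indicator of a proposition. -/
noncomputable def ind (P : Prop) : ℕ := by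
  classical exact if P then 1 else 0

lemma ind_pos {P : Prop} (h : P) : ind P = 1 := by
  unfold ind
  exact if_pos h

lemma ind_neg {P : Prop} (h : ¬ P) : ind P = 0 := by
  unfold ind
  exact if_neg h

lemma ind_mono {P Q : Prop} (h : P → Q) : ind P ≤ ind Q := by
  by_cases hp : P
  · rw [ind_pos hp, ind_pos (h hp)]
  · rw [ind_neg hp]
    exact Nat.zero_le _

/-- The number of elements of `A` in `[1, N]`. -/
noncomputable def cnt (A : Set ℕ) (N : ℕ) : ℕ := ∑ v ∈ Icc 1 N, ind (v ∈ A)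

lemma cnt_eq (A : Set ℕ) (N : ℕ) [DecidablePred (fun v => v ∈ A)] :
    cnt A N = ((Icc 1 N).filter (fun v => v ∈ A)).card := by
  rw [cnt, card_filter]
  refine sum_congr rfl (fun v _ => ?_)
  by_cases h : v ∈ A
  · rw [ind_pos h, if_pos h]
  · rw [ind_neg h, if_neg h]

lemma cnt_le_card {A : Set ℕ} {N : ℕ} {S : Finset ℕ}
    (h : ∀ v, 1 ≤ v → v ≤ N → v ∈ A → v ∈ S) : cnt A N ≤ S.card := by
  classical
  rw [cnt_eq]
  refine card_le_card (fun v hv => ?_)
  rw [mem_filter, mem_Icc] at hv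
  exact h v hv.1.1 hv.1.2 hv.2

lemma cnt_union (A B : Set ℕ) (N : ℕ) : cnt (A ∪ B) N ≤ cnt A N + cnt B N := by
  unfold cnt
  rw [← sum_add_distrib]
  refine sum_le_sum (fun v _ => ?_)
  by_cases h : v ∈ A
  · have h2 : v ∈ A ∪ B := Set.mem_union_left B h
    rw [ind_pos h, ind_pos h2]
    omega
  · rw [ind_neg h, zero_add]
    exact ind_mono (fun h2 => h2.resolve_left h)

lemma cnt_mono' {A B : Set ℕ} {N : ℕ} (h : ∀ v, 1 ≤ v → v ∈ A → v ∈ B) :
    cnt A N ≤ cnt B N := by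
  unfold cnt
  refine sum_le_sum (fun v hv => ?_)
  rw [mem_Icc] at hv
  exact ind_mono (h v hv.1)

lemma cnt_mono {A B : Set ℕ} (h : A ⊆ B) (N : ℕ) : cnt A N ≤ cnt B N :=
  cnt_mono' (fun _ _ h2 => h h2)

/-- Shifting a set changes the number of elements by at most the shift. -/
lemma cnt_shift (A : Set ℕ) (t N : ℕ) : cnt A N ≤ cnt {v | v + t ∈ A} N + t := by
  classical
  refine (cnt_le_card (S := (((Icc 1 N).filter (fun v => v ∈ {v | v + t ∈ A})).image
    (fun v => v + t)) ∪ Icc 1 t) ?_).trans ?_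
  · intro v h1 h2 h3
    rw [mem_union, mem_image, mem_Icc]
    by_cases hvt : v ≤ t
    · exact Or.inr ⟨h1, hvt⟩
    · refine Or.inl ⟨v - t, ?_, by omega⟩
      rw [mem_filter, mem_Icc]
      refine ⟨by omega, ?_⟩
      change v - t + t ∈ A
      rw [Nat.sub_add_cancel (by omega)]
      exact h3
  · refine (card_union_le _ _).trans ?_
    rw [cnt_eq]
    refine Nat.add_le_add card_image_le ?_
    simp

/-- The number of odd integers up to `N`. -/
lemma cnt_odd (N : ℕ) : 2 * cnt {v | Odd v} N ≤ N + 1 := by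
  have h : cnt {v | Odd v} N ≤ ((range ((N + 1) / 2)).image (fun i => 2 * i + 1)).card := by
    refine cnt_le_card (fun v h1 h2 h3 => ?_)
    obtain ⟨i, hi⟩ := h3
    rw [mem_image]
    exact ⟨i, mem_range.2 (by omega), hi.symm⟩
  have h2 : ((range ((N + 1) / 2)).image (fun i => 2 * i + 1)).card ≤ (N + 1) / 2 :=
    card_image_le.trans (by simp)
  omega

/-- The number of multiples of `m` up to `N`. -/
lemma cnt_dvd {m : ℕ} (hm : 0 < m) (N : ℕ) : cnt {v | m ∣ v} N ≤ N / m := by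
  have h : cnt {v | m ∣ v} N ≤ ((Icc 1 (N / m)).image (fun i => m * i)).card := by
    refine cnt_le_card (fun v h1 h2 h3 => ?_)
    obtain ⟨i, rfl⟩ := h3
    rw [mem_image]
    refine ⟨i, mem_Icc.2 ⟨?_, ?_⟩, rfl⟩
    · rcases Nat.eq_zero_or_pos i with h0 | h0
      · subst h0; simp at h1
      · exact h0
    · rw [Nat.le_div_iff_mul_le hm, mul_comm]
      exact h2
  exact h.trans (card_image_le.trans (by simp))

lemma five_prop (p0 p1 p2 p3 p4 : Prop) (h01 : ¬ (p0 ∧ p1)) (h12 : ¬ (p1 ∧ p2))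
    (h23 : ¬ (p2 ∧ p3)) (h34 : ¬ (p3 ∧ p4)) (h04 : ¬ (p0 ∧ p4)) :
    ind p0 + ind p1 + ind p2 + ind p3 + ind p4 ≤ 2 := by
  unfold ind
  by_cases a0 : p0 <;> by_cases a1 : p1 <;> by_cases a2 : p2 <;> by_cases a3 : p3 <;>
    by_cases a4 : p4 <;> simp_all

/-- The odd part. -/
lemma odd_part {E : Set ℕ} {w : ℕ}
    (h : ∀ v ∈ E, Odd v → v + 2 * w ∉ E ∧ v + 8 * w ∉ E) (N : ℕ) :
    5 * cnt {v | v ∈ E ∧ Odd v} N ≤ N + 1 + 20 * w := by
  set A : Set ℕ := {v | v ∈ E ∧ Odd v} with hA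
  have hsum : cnt A N + cnt {v | v + 2 * w ∈ A} N + cnt {v | v + 4 * w ∈ A} N +
      cnt {v | v + 6 * w ∈ A} N + cnt {v | v + 8 * w ∈ A} N ≤ 2 * cnt {v | Odd v} N := by
    simp only [cnt]
    rw [← sum_add_distrib, ← sum_add_distrib, ← sum_add_distrib, ← sum_add_distrib, mul_sum]
    refine sum_le_sum (fun v _ => ?_)
    by_cases hv : Odd v
    · have h2 : ∀ u, u ∈ A → u + 2 * w ∉ A ∧ u + 8 * w ∉ A := fun u hu =>
        ⟨fun h3 => (h u hu.1 hu.2).1 h3.1, fun h3 => (h u hu.1 hu.2).2 h3.1⟩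
      have h5 := five_prop (v ∈ A) (v + 2 * w ∈ A) (v + 4 * w ∈ A) (v + 6 * w ∈ A)
        (v + 8 * w ∈ A) (fun h3 => (h2 _ h3.1).1 h3.2)
        (fun h3 => (h2 _ h3.1).1 (by rw [show v + 2 * w + 2 * w = v + 4 * w by ring]; exact h3.2))
        (fun h3 => (h2 _ h3.1).1 (by rw [show v + 4 * w + 2 * w = v + 6 * w by ring]; exact h3.2))
        (fun h3 => (h2 _ h3.1).1 (by rw [show v + 6 * w + 2 * w = v + 8 * w by ring]; exact h3.2))
        (fun h3 => (h2 _ h3.1).2 h3.2)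
      have h6 : ind (v ∈ {v | Odd v}) = 1 := ind_pos hv
      rw [h6]
      exact h5
    · have h2 : ∀ j, v + 2 * j * w ∉ A := by
        intro j h3
        apply hv
        have h4 : Odd (v + 2 * j * w) := h3.2
        rw [Nat.odd_add] at h4
        exact h4.2 ⟨j * w, by ring⟩
      have e0 := h2 0
      have e1 := h2 1
      have e2 := h2 2
      have e3 := h2 3
      have e4 := h2 4
      norm_num at e0 e1 e2 e3 e4
      have f0 : ind (v ∈ A) = 0 := ind_neg e0
      have f1 : ind (v ∈ {v | v + 2 * w ∈ A}) = 0 := ind_neg e1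
      have f2 : ind (v ∈ {v | v + 4 * w ∈ A}) = 0 := ind_neg e2
      have f3 : ind (v ∈ {v | v + 6 * w ∈ A}) = 0 := ind_neg e3
      have f4 : ind (v ∈ {v | v + 8 * w ∈ A}) = 0 := ind_neg e4
      rw [f0, f1, f2, f3, f4]
      exact Nat.zero_le _
  have s1 := cnt_shift A (2 * w) N
  have s2 := cnt_shift A (4 * w) N
  have s3 := cnt_shift A (6 * w) N
  have s4 := cnt_shift A (8 * w) N
  have s5 := cnt_odd N
  omega

/-- The even part. -/
lemma even_part {E : Set ℕ} {w l : ℕ} (hw : Even w)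
    (h : ∀ v ∈ E, Even v → ¬ l ∣ v → v + l * w ∉ E) (N : ℕ) :
    2 * cnt {v | v ∈ E ∧ Even v ∧ ¬ l ∣ v} N ≤ N / 2 + l * w := by
  set A : Set ℕ := {v | v ∈ E ∧ Even v ∧ ¬ l ∣ v} with hA
  have hsum : cnt A N + cnt {v | v + l * w ∈ A} N ≤ cnt {v | 2 ∣ v} N := by
    simp only [cnt]
    rw [← sum_add_distrib]
    refine sum_le_sum (fun v _ => ?_)
    by_cases hv : Even v
    · have h6 : ind (v ∈ {v | 2 ∣ v}) = 1 := ind_pos hv.two_dvd
      rw [h6]
      by_cases a : v ∈ A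
      · have b : v ∉ {v | v + l * w ∈ A} := fun b => h v a.1 a.2.1 a.2.2 b.1
        rw [ind_pos a, ind_neg b]
      · rw [ind_neg a, zero_add, ← ind_pos True.intro]
        exact ind_mono (fun _ => True.intro)
    · have a : v ∉ A := fun a => hv a.2.1
      have b : v ∉ {v | v + l * w ∈ A} := by
        intro b
        apply hv
        have h4 : Even (v + l * w) := b.2.1
        rw [Nat.even_add] at h4
        exact h4.2 (hw.mul_left l)
      rw [ind_neg a, ind_neg b]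
      exact Nat.zero_le _
  have s1 := cnt_shift A (l * w) N
  have s2 := cnt_dvd (m := 2) (by norm_num) N
  omega

/-- **The density bound.** -/
theorem density {E : Set ℕ}
    (h1 : ∀ v ∈ E, ∀ w ∈ E, Odd v → v + 2 * w ∉ E ∧ v + 8 * w ∉ E)
    (h2 : ∀ v ∈ E, ∀ w ∈ E, ∀ l : ℕ, l.Prime → Odd l → Even v → ¬ l ∣ v → v + l * w ∉ E) :
    ∀ ε : ℝ, 0 < ε → ∀ᶠ N : ℕ in atTop, (cnt E N : ℝ) ≤ (9 / 20 + ε) * N := by
  intro ε hε
  by_cases hev : ∃ w ∈ E, Even w
  · obtain ⟨w, hw, hwe⟩ := hev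
    obtain ⟨l, hl, hlp⟩ := Nat.exists_infinite_primes (⌈1 / ε⌉₊ + 3)
    have hlodd : Odd l := hlp.odd_of_ne_two (by omega)
    have hl0 : 0 < l := hlp.pos
    have hlε : 1 / (2 * (l : ℝ)) ≤ ε / 2 := by
      have h3 : 1 / ε ≤ l := by
        have h5 : ⌈1 / ε⌉₊ ≤ l := by omega
        exact (Nat.le_ceil _).trans (by exact_mod_cast h5)
      have h4 : (0 : ℝ) < l := by exact_mod_cast hl0
      rw [div_le_iff₀ (by positivity)]
      rw [div_le_iff₀ hε] at h3
      nlinarith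
    have hN : ∀ᶠ N : ℕ in atTop, (((1 + 20 * w) / 5 + (l * w) / 2 : ℝ)) ≤ ε / 2 * N := by
      have := tendsto_natCast_atTop_atTop (R := ℝ)
      have h3 := (this.const_mul_atTop (show (0 : ℝ) < ε / 2 by positivity)).eventually_ge_atTop
        ((1 + 20 * w) / 5 + (l * w) / 2 : ℝ)
      exact h3
    filter_upwards [hN] with N hN
    have hsub : E ∩ {v | 1 ≤ v} ⊆ {v | v ∈ E ∧ Odd v} ∪ ({v | v ∈ E ∧ Even v ∧ ¬ l ∣ v} ∪
        {v | 2 * l ∣ v}) := by
      rintro v ⟨hv, -⟩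
      rcases Nat.even_or_odd v with he | ho
      · right
        by_cases hd : l ∣ v
        · right
          have hc : Nat.Coprime 2 l := by
            rw [Nat.coprime_comm]
            exact hlodd.coprime_two_right
          exact hc.mul_dvd_of_dvd_of_dvd he.two_dvd hd
        · exact Or.inl ⟨hv, he, hd⟩
      · exact Or.inl ⟨hv, ho⟩
    have hE : cnt E N ≤ cnt (E ∩ {v | 1 ≤ v}) N := cnt_mono' (fun v h3 h4 => ⟨h4, h3⟩)
    have t1 := (hE.trans (cnt_mono hsub N)).trans ((cnt_union _ _ N).trans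
      (Nat.add_le_add_left (cnt_union _ _ N) _))
    have t2 := odd_part (E := E) (w := w) (fun v hv ho => h1 v hv w hw ho) N
    have t3 := even_part (E := E) (w := w) (l := l) hwe
      (fun v hv he hd => h2 v hv w hw l hlp hlodd he hd) N
    have t4 := cnt_dvd (m := 2 * l) (by positivity) N
    have t1' : (cnt E N : ℝ) ≤ (cnt {v | v ∈ E ∧ Odd v} N : ℝ) +
        ((cnt {v | v ∈ E ∧ Even v ∧ ¬ l ∣ v} N : ℝ) + (cnt {v | 2 * l ∣ v} N : ℝ)) := by
      exact_mod_cast t1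
    have t2' : 5 * (cnt {v | v ∈ E ∧ Odd v} N : ℝ) ≤ N + 1 + 20 * w := by exact_mod_cast t2
    have t3' : 2 * (cnt {v | v ∈ E ∧ Even v ∧ ¬ l ∣ v} N : ℝ) ≤ N / 2 + l * w := by
      have h3 : (2 * (cnt {v | v ∈ E ∧ Even v ∧ ¬ l ∣ v} N : ℕ) : ℝ) ≤
          ((N / 2 : ℕ) : ℝ) + l * w := by exact_mod_cast t3
      have h4 : ((N / 2 : ℕ) : ℝ) ≤ (N : ℝ) / 2 := by
        have := @Nat.cast_div_le ℝ _ _ _ N 2
        exact_mod_cast this
      linarith
    have t4' : (cnt {v | 2 * l ∣ v} N : ℝ) ≤ N * (1 / (2 * l)) := by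
      have h3 : (cnt {v | 2 * l ∣ v} N : ℝ) ≤ ((N / (2 * l) : ℕ) : ℝ) := by exact_mod_cast t4
      have h4 : ((N / (2 * l) : ℕ) : ℝ) ≤ (N : ℝ) / ((2 * l : ℕ) : ℝ) := Nat.cast_div_le
      push_cast at h4
      calc (cnt {v | 2 * l ∣ v} N : ℝ) ≤ (N : ℝ) / (2 * l) := h3.trans h4
        _ = N * (1 / (2 * l)) := by ring
    have t5 : (N : ℝ) * (1 / (2 * l)) ≤ N * (ε / 2) := by gcongr
    nlinarith
  · push Not at hev
    by_cases hne : E.Nonempty
    · obtain ⟨w, hw⟩ := hne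
      have hN : ∀ᶠ N : ℕ in atTop, (((1 + 20 * w) / 5 : ℝ)) ≤ ε * N := by
        have := tendsto_natCast_atTop_atTop (R := ℝ)
        exact (this.const_mul_atTop hε).eventually_ge_atTop ((1 + 20 * w) / 5 : ℝ)
      filter_upwards [hN] with N hN
      have t2 := odd_part (E := E) (w := w) (fun v hv ho => h1 v hv w hw ho) N
      have hs : E ⊆ {v | v ∈ E ∧ Odd v} := by
        intro v hv
        exact ⟨hv, Nat.not_even_iff_odd.1 (hev v hv)⟩
      have hE : cnt E N ≤ cnt {v | v ∈ E ∧ Odd v} N := cnt_mono hs N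
      have t1' : (cnt E N : ℝ) ≤ (cnt {v | v ∈ E ∧ Odd v} N : ℝ) := by exact_mod_cast hE
      have t2' : 5 * (cnt {v | v ∈ E ∧ Odd v} N : ℝ) ≤ N + 1 + 20 * w := by exact_mod_cast t2
      have t3' : (0 : ℝ) ≤ N := Nat.cast_nonneg _
      nlinarith
    · refine Eventually.of_forall (fun N => ?_)
      have hE0 : ∀ v, v ∉ E := fun v hv => hne ⟨v, hv⟩
      have h3 : cnt E N = 0 := by
        rw [cnt]
        exact sum_eq_zero (fun v _ => ind_neg (hE0 v))
      rw [h3]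
      push_cast
      positivity

end Pool.Agent.MajorityShifts
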