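import Pool.Agent.Work.MP_0c1432_nt_h67.Final
import Pool.Agent.Work.MP_0c1432_nt_h31.Density

/-!
# Three linear forms, and the density of the shifts

Chen's theorem for `n` prime or product of two primes with `p = k n - v` prime.
-/

set_option autoImplicit false

namespace Pool.Agent.MajorityShifts

open Finset Filter ArithmeticFunction
open scoped Topology
open Pool.Agent.ChenShift

/-- **Three linear forms.** -/
theorem three_forms {k : ℕ} (hk : 2 ≤ k) {v : ℤ} (hv : v ≠ 0) (hcop : IsCoprime (k : ℤ) v)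
    (hev : Even ((k : ℤ) * v)) {α₁ α₂ : ℕ} {β₁ β₂ : ℤ} (h1 : 0 < α₁) (h2 : 0 < α₂)
    (hrel : (α₂ : ℤ) * (β₁ - α₁ * v) = α₁ * k * β₂) {e e₁ e₂ : ℕ}
    (he : ¬ e ≡ cardFactors k [MOD 2])
    (hee : ¬ e₁ + e₂ ≡ cardFactors α₁ + cardFactors α₂ + cardFactors k [MOD 2]) :
    ∃ c : ℝ, 0 < c ∧ ∀ᶠ x : ℕ in atTop,
      c * (x / (Real.log x) ^ 2) ≤ ({p : ℕ | p ≤ x ∧ (p.Prime ∧
        ¬ (cardFactors ((p : ℤ) + v).toNat ≡ e [MOD 2] ∧
          cardFactors ((α₁ : ℤ) * p + β₁).toNat ≡ e₁ [MOD 2] ∧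
          cardFactors ((α₂ : ℤ) * p + β₂).toNat ≡ e₂ [MOD 2]))}.ncard : ℝ) := by
  have hadm : Adm k (-v) := by
    refine ⟨by omega, neg_ne_zero.2 hv, hcop.neg_right, ?_⟩
    rw [mul_neg]
    exact hev.neg
  refine many_of hadm hk (β₁.natAbs + β₂.natAbs + v.natAbs + 2) _ ?_
  intro n hn _ hp hU hn2
  obtain ⟨P, hP⟩ : ∃ P : ℕ, P = U k (-v) n := ⟨_, rfl⟩
  rw [← hP] at hp hU ⊢
  have hk0 : k ≠ 0 := by omega
  rcases hn2 with hn2 | ⟨q₁, q₂, hq1, hq2, hq⟩
  · -- `n` is prime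
    by_cases hpat : (cardFactors ((P : ℤ) + v).toNat ≡ e [MOD 2] ∧
          cardFactors ((α₁ : ℤ) * P + β₁).toNat ≡ e₁ [MOD 2] ∧
          cardFactors ((α₂ : ℤ) * P + β₂).toNat ≡ e₂ [MOD 2])
    · refine Or.inr ⟨hn2, fun hpat2 => hee ?_⟩
      have hY : 0 < (α₂ : ℤ) * n + β₂ := by
        have ha : (1 : ℤ) ≤ α₂ := by exact_mod_cast h2
        have hb : (β₂.natAbs : ℤ) + 2 ≤ n := by
          have : β₂.natAbs + 2 ≤ n := by omega
          exact_mod_cast this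
        have hc : -(β₂.natAbs : ℤ) ≤ β₂ := by omega
        nlinarith
      have hX : 0 < (α₁ : ℤ) * P + β₁ := by
        have ha : (1 : ℤ) ≤ α₁ := by exact_mod_cast h1
        have hb : (β₁.natAbs : ℤ) + v.natAbs + 2 ≤ n := by
          have : β₁.natAbs + v.natAbs + 2 ≤ n := by omega
          exact_mod_cast this
        have hc : -(β₁.natAbs : ℤ) ≤ β₁ := by omega
        have hd : -(v.natAbs : ℤ) ≤ -v := by omega
        have hkk : (2 : ℤ) ≤ k := by exact_mod_cast hk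
        have hPn : (n : ℤ) - v.natAbs ≤ P := by nlinarith
        nlinarith
      obtain ⟨X, hX2⟩ := Int.eq_ofNat_of_zero_le hX.le
      obtain ⟨Y, hY2⟩ := Int.eq_ofNat_of_zero_le hY.le
      have e1 := hpat.2.1
      have e2 := hpat2.2.2
      rw [hX2] at e1 hX
      rw [hY2] at e2 hY
      rw [Int.toNat_natCast] at e1 e2
      have hX0 : X ≠ 0 := by
        rintro rfl
        simp at hX
      have hY0 : Y ≠ 0 := by
        rintro rfl
        simp at hY
      have hmul : α₂ * X = α₁ * k * Y := by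
        have h3 : ((α₂ * X : ℕ) : ℤ) = ((α₁ * k * Y : ℕ) : ℤ) := by
          push_cast
          rw [← hX2, ← hY2, hU]
          linear_combination hrel
        exact_mod_cast h3
      have h4 : cardFactors α₂ + cardFactors X = cardFactors α₁ + cardFactors k + cardFactors Y := by
        rw [← cardFactors_mul (by omega) hX0, hmul,
          cardFactors_mul (mul_ne_zero (by omega) hk0) hY0, cardFactors_mul (by omega) hk0]
      unfold Nat.ModEq at e1 e2 ⊢
      omega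
    · exact Or.inl ⟨hp, hpat⟩
  · refine Or.inl ⟨hp, fun hpat => he ?_⟩
    have h3 : (P : ℤ) + v = ((k * n : ℕ) : ℤ) := by
      rw [hU]
      push_cast
      ring
    have h4 := hpat.1
    rw [h3, Int.toNat_natCast, hq, cardFactors_mul hk0 (mul_ne_zero hq1.ne_zero hq2.ne_zero),
      om_two hq1 hq2] at h4
    unfold Nat.ModEq at h4 ⊢
    omega

/-- The primes `p ≤ x` with `Ω(p + s h)` odd. -/
def oddSet (s : ℤ) (h x : ℕ) : Set ℕ :=
  {p : ℕ | p ≤ x ∧ p.Prime ∧ Odd (cardFactors ((p : ℤ) + s * h).toNat)}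

/-- `Ω(p + s h)` is odd for at least `c x / (log x)^2` primes `p ≤ x`, for arbitrarily large `x`. -/
def Many (s : ℤ) (h : ℕ) : Prop :=
  ∃ c : ℝ, 0 < c ∧ ∃ᶠ x : ℕ in atTop, c * (x / (Real.log x) ^ 2) ≤ ((oddSet s h x).ncard : ℝ)

/-- The exceptional shifts. -/
def Exc (s : ℤ) : Set ℕ := {h : ℕ | 1 ≤ h ∧ ¬ Many s h}

lemma oddSet_finite (s : ℤ) (h x : ℕ) : (oddSet s h x).Finite :=
  (Set.finite_Iic x).subset (fun _ hp => hp.1)

lemma exc_small {s : ℤ} {h : ℕ} (hh : h ∈ Exc s) {c : ℝ} (hc : 0 < c) :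
    ∀ᶠ x : ℕ in atTop, ((oddSet s h x).ncard : ℝ) < c * (x / (Real.log x) ^ 2) := by
  have h1 := hh.2
  unfold Many at h1
  push Not at h1
  exact h1 c hc

/-- The law of the exceptional shifts. -/
lemma exc_law {s : ℤ} (hs : s = 1 ∨ s = -1) {k v w : ℕ} (hk : 2 ≤ k)
    (hodd : Odd (cardFactors k)) (hcop : Nat.Coprime k v) (hev : Even (k * v))
    (hv : v ∈ Exc s) (hw : w ∈ Exc s) : v + k * w ∉ Exc s := by
  intro hu
  have hs0 : s ≠ 0 := by rcases hs with rfl | rfl <;> norm_num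
  obtain ⟨c, hc, h⟩ := three_forms (k := k) hk (v := s * v) (α₁ := 1) (α₂ := 1)
    (β₁ := s * ((v + k * w : ℕ) : ℤ)) (β₂ := s * w) (e := 0) (e₁ := 0) (e₂ := 0)
    (mul_ne_zero hs0 (by
      have := hv.1
      exact_mod_cast (by omega : v ≠ 0)))
    (by
      have h1 : IsCoprime (k : ℤ) (v : ℤ) := Nat.isCoprime_iff_coprime.2 hcop
      rcases hs with rfl | rfl
      · rw [one_mul]; exact h1
      · rw [neg_one_mul]; exact h1.neg_right)
    (by
      have h1 : Even ((k : ℤ) * v) := by exact_mod_cast hev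
      rw [show (k : ℤ) * (s * v) = s * (k * v) by ring]
      exact h1.mul_left s)
    one_pos one_pos (by push_cast; ring)
    (by
      obtain ⟨t, ht⟩ := hodd
      unfold Nat.ModEq
      omega)
    (by
      obtain ⟨t, ht⟩ := hodd
      rw [cardFactors_one]
      unfold Nat.ModEq
      omega)
  have hc4 : 0 < c / 4 := by positivity
  obtain ⟨x, ⟨⟨h1, h2⟩, h3⟩, h4⟩ := (((h.and (exc_small hv hc4)).and (exc_small hw hc4)).and
    (exc_small hu hc4)).exists
  have hfin : (oddSet s v x ∪ oddSet s w x ∪ oddSet s (v + k * w) x).Finite :=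
    ((oddSet_finite _ _ _).union (oddSet_finite _ _ _)).union (oddSet_finite _ _ _)
  have h5 := Set.ncard_le_ncard (s := {p : ℕ | p ≤ x ∧ (p.Prime ∧
        ¬ (cardFactors ((p : ℤ) + s * v).toNat ≡ 0 [MOD 2] ∧
          cardFactors (((1 : ℕ) : ℤ) * p + s * ((v + k * w : ℕ) : ℤ)).toNat ≡ 0 [MOD 2] ∧
          cardFactors (((1 : ℕ) : ℤ) * p + s * w).toNat ≡ 0 [MOD 2]))})
    (t := oddSet s v x ∪ oddSet s w x ∪ oddSet s (v + k * w) x) (by
      rintro p ⟨hpx, hp, hpat⟩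
      by_contra hcon
      apply hpat
      rw [Set.mem_union, Set.mem_union] at hcon
      push Not at hcon
      obtain ⟨⟨c1, c2⟩, c3⟩ := hcon
      have d1 : ¬ Odd (cardFactors ((p : ℤ) + s * v).toNat) := fun h3 => c1 ⟨hpx, hp, h3⟩
      have d2 : ¬ Odd (cardFactors ((p : ℤ) + s * w).toNat) := fun h3 => c2 ⟨hpx, hp, h3⟩
      have d3 : ¬ Odd (cardFactors ((p : ℤ) + s * ((v + k * w : ℕ) : ℤ)).toNat) :=
        fun h3 => c3 ⟨hpx, hp, h3⟩
      rw [Nat.not_odd_iff_even, Nat.even_iff] at d1 d2 d3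
      refine ⟨d1, ?_, ?_⟩
      · rw [Nat.cast_one, one_mul]; exact d3
      · rw [Nat.cast_one, one_mul]; exact d2) hfin
  have h6 : (oddSet s v x ∪ oddSet s w x ∪ oddSet s (v + k * w) x).ncard ≤
      (oddSet s v x).ncard + (oddSet s w x).ncard + (oddSet s (v + k * w) x).ncard :=
    (Set.ncard_union_le _ _).trans (Nat.add_le_add_right (Set.ncard_union_le _ _) _)
  have h7 : c * (x / (Real.log x) ^ 2) ≤ ((oddSet s v x).ncard : ℝ) + (oddSet s w x).ncard +
      (oddSet s (v + k * w) x).ncard := h1.trans (by exact_mod_cast h5.trans h6)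
  have h8 : (0 : ℝ) ≤ x / (Real.log x) ^ 2 := by positivity
  nlinarith

lemma om_eight : Odd (cardFactors 8) := by
  rw [show (8 : ℕ) = 2 ^ 3 by norm_num, cardFactors_apply_prime_pow Nat.prime_two]
  decide

/-- **At least 11/20 of the shifts.** -/
theorem majority {s : ℤ} (hs : s = 1 ∨ s = -1) {ε : ℝ} (hε : 0 < ε) :
    ∀ᶠ N : ℕ in atTop, (11 / 20 - ε) * N ≤ ({h : ℕ | 1 ≤ h ∧ h ≤ N ∧ Many s h}.ncard : ℝ) := by
  classical
  have h1 : ∀ v ∈ Exc s, ∀ w ∈ Exc s, Odd v → v + 2 * w ∉ Exc s ∧ v + 8 * w ∉ Exc s := by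
    intro v hv w hw ho
    refine ⟨exc_law hs le_rfl (by rw [cardFactors_apply_prime Nat.prime_two]; decide)
      (Nat.coprime_two_left.2 ho) (even_two.mul_right v) hv hw,
      exc_law hs (by norm_num) om_eight ?_ ((by decide : Even 8).mul_right v) hv hw⟩
    rw [show (8 : ℕ) = 2 ^ 3 by norm_num]
    exact (Nat.coprime_two_left.2 ho).pow_left 3
  have h2 : ∀ v ∈ Exc s, ∀ w ∈ Exc s, ∀ l : ℕ, l.Prime → Odd l → Even v → ¬ l ∣ v →
      v + l * w ∉ Exc s := by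
    intro v hv w hw l hl _ he hd
    exact exc_law hs hl.two_le (by rw [cardFactors_apply_prime hl]; exact odd_one)
      ((Nat.Prime.coprime_iff_not_dvd hl).2 hd) (he.mul_left l) hv hw
  filter_upwards [density h1 h2 ε hε] with N hN
  have h3 : {h : ℕ | 1 ≤ h ∧ h ≤ N ∧ Many s h}.ncard + cnt (Exc s) N = N := by
    rw [cnt_eq]
    have h4 : {h : ℕ | 1 ≤ h ∧ h ≤ N ∧ Many s h} =
        (((Icc 1 N).filter (fun h => ¬ h ∈ Exc s) : Finset ℕ) : Set ℕ) := by
      ext h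
      rw [Finset.mem_coe, mem_filter, mem_Icc]
      constructor
      · rintro ⟨a, b, c⟩
        exact ⟨⟨a, b⟩, fun d => d.2 c⟩
      · rintro ⟨⟨a, b⟩, c⟩
        refine ⟨a, b, ?_⟩
        by_contra d
        exact c ⟨a, d⟩
    rw [h4, Set.ncard_coe_finset, add_comm, card_filter_add_card_filter_not]
    simp
  have h5 : ({h : ℕ | 1 ≤ h ∧ h ≤ N ∧ Many s h}.ncard : ℝ) + (cnt (Exc s) N : ℝ) = N := by
    exact_mod_cast h3
  linarith

/-- **Companions.** The pairs of forms `p - 1`, `m p + 1`, `m + 1 = k`. -/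
theorem companions {k : ℕ} (hk : Even k) (hodd : Odd (cardFactors k)) (b : ℕ) :
    ∃ c : ℝ, 0 < c ∧ ∀ᶠ x : ℕ in atTop,
      c * (x / (Real.log x) ^ 2) ≤ ({p : ℕ | p ≤ x ∧ (p.Prime ∧
        ¬ (Even (cardFactors (p - 1)) ∧
          cardFactors ((k - 1) * p + 1) ≡ b [MOD 2]))}.ncard : ℝ) := by
  have hk2 : 2 ≤ k := by
    by_contra h
    interval_cases k <;> simp at hodd
  have hkk : ((k - 1 : ℕ) : ℤ) = k - 1 := by
    rw [Nat.cast_sub (by omega)]; norm_num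
  obtain ⟨c, hc, h⟩ := three_forms (k := k) hk2 (v := -1) (α₁ := k - 1) (α₂ := k - 1)
    (β₁ := 1) (β₂ := 1) (e := 0) (e₁ := b) (e₂ := b) (by norm_num)
    (isCoprime_one_right.neg_right) (by
      rw [mul_neg_one]
      have : Even (k : ℤ) := by exact_mod_cast hk
      exact this.neg) (by omega) (by omega) (by
      rw [hkk]; ring)
    (by
      obtain ⟨t, ht⟩ := hodd
      unfold Nat.ModEq
      omega)
    (by
      obtain ⟨t, ht⟩ := hodd
      unfold Nat.ModEq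
      omega)
  refine ⟨c, hc, ?_⟩
  filter_upwards [h] with x hx
  refine hx.trans ?_
  have hfin : {p : ℕ | p ≤ x ∧ (p.Prime ∧ ¬ (Even (cardFactors (p - 1)) ∧
      cardFactors ((k - 1) * p + 1) ≡ b [MOD 2]))}.Finite :=
    (Set.finite_Iic x).subset (fun p hp => hp.1)
  have hsub : {p : ℕ | p ≤ x ∧ (p.Prime ∧
        ¬ (cardFactors ((p : ℤ) + (-1)).toNat ≡ 0 [MOD 2] ∧
          cardFactors (((k - 1 : ℕ) : ℤ) * p + 1).toNat ≡ b [MOD 2] ∧
          cardFactors (((k - 1 : ℕ) : ℤ) * p + 1).toNat ≡ b [MOD 2]))} ⊆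
      {p : ℕ | p ≤ x ∧ (p.Prime ∧ ¬ (Even (cardFactors (p - 1)) ∧
        cardFactors ((k - 1) * p + 1) ≡ b [MOD 2]))} := by
    rintro p ⟨h1, h2, h3⟩
    refine ⟨h1, h2, fun h4 => h3 ?_⟩
    have e1 : ((p : ℤ) + (-1)).toNat = p - 1 := by omega
    have e2 : (((k - 1 : ℕ) : ℤ) * p + 1).toNat = (k - 1) * p + 1 := by
      have : ((k - 1 : ℕ) : ℤ) * p + 1 = (((k - 1) * p + 1 : ℕ) : ℤ) := by push_cast; ring
      rw [this, Int.toNat_natCast]
    rw [e1, e2]
    exact ⟨Nat.even_iff.1 h4.1, h4.2, h4.2⟩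
  exact_mod_cast Set.ncard_le_ncard hsub hfin

end Pool.Agent.MajorityShifts
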